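import Mathlib
import Pool.Agent.Lib_helper18.TF.Defs

/-!
# Thin families, project E2 (MP_892e4c_nt): rough Gaussian integers, definitions
-/

namespace Pool.Agent.TF

open Pool.Agent.T2

open Classical in
/-- the primitive elements `u` with `0 < im u < re u`, norm in `(Y, 2Y]`, such that all prime
divisors of the norm exceed `R` -/
noncomputable def RE (R Y : ℝ) : Finset G :=
  (Bl (2 * Y)).filter (fun u => Y < (nn u : ℝ) ∧ Prm u ∧ 0 < u.im ∧ u.im < u.re ∧
    ∀ p : ℕ, p.Prime → p ∣ nn u → R < (p : ℝ))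

open Classical in
/-- the number of pairs of elements of `RE R Y` with a nonzero determinant, divisible by `q`, of
absolute value at most `D` -/
noncomputable def NR (R Y D : ℝ) (q : ℕ) : ℝ :=
  (((RE R Y ×ˢ RE R Y).filter (fun t =>
    det t.1 t.2 ≠ 0 ∧ |(det t.1 t.2 : ℝ)| ≤ D ∧ (q : ℤ) ∣ det t.1 t.2)).card : ℝ)

/-- the bilinear sum with rough `u` and arbitrary coefficients `a`, `h` -/
noncomputable def SR (f : ℝ → ℝ) (a h : G → ℝ) (σ : ℤ) (x R Y : ℝ) (c : ℤ → ℝ) : ℝ :=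
  ∑ u ∈ RE R Y, a u * ∑ z ∈ Bl (2 * x ^ 2 / Y),
    h z * c (σ * (u * z).im) * f (((u * z).re : ℝ) / x)

/-- the sum of squares which arises from the inequality of Cauchy -/
noncomputable def TTR (f : ℝ → ℝ) (a : G → ℝ) (σ : ℤ) (x R Y : ℝ) (c : ℤ → ℝ) : ℝ :=
  ∑ z ∈ Bl (2 * x ^ 2 / Y), (∑ u ∈ RE R Y,
    a u * (c (σ * (u * z).im) * f (((u * z).re : ℝ) / x))) ^ 2

end Pool.Agent.TF
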